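import Pool.Agent.Lib.KR51.Grad
import Pool.Agent.Lib.RB.TAll
import Pool.Agent.Lib.KR39.CL

/-! Project kr24: the case of a big canonical class. -/

open scoped Classical Topology ContDiff ComplexOrder Matrix
open Set MeasureTheory Complex Metric Filter

noncomputable section

namespace Pool.Agent.Lib.K51

open Pool.Agent.Lib.SV (E)
open Pool.Agent.Lib.HS32 Pool.Agent.Lib.HS32.Mf Pool.Agent.Lib.HS76 Pool.Agent.Lib.GH
open Pool.Agent.Lib.HS.SMALL (pair)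
open Pool.Agent.Lib.GH.G28 (tr_pos)
open Pool.Agent.Lib.GH.G34 (sol_ric sol_det)

theorem ev_small (K a b : ℝ) {L : ℕ} (hL : 0 < L) :
    ∀ᶠ ε in 𝓝[>] (0 : ℝ), ε * (1 + K * (a + b * -Real.log ε) ^ L) < 1 := by
  have r : (0 : ℝ) < (L : ℝ)⁻¹ := by positivity
  have h0 : Tendsto (fun ε : ℝ => ε) (𝓝[>] 0) (𝓝 0) := tendsto_nhdsWithin_of_tendsto_nhds tendsto_id
  have h1 := (h0.rpow_const_nhds_zero r).const_mul a
  have h2 := (tendsto_log_mul_rpow_nhdsGT_zero r).const_mul b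
  have h3 := h0.add (((h1.sub h2).pow L).const_mul K)
  simp only [mul_zero, sub_zero, zero_pow hL.ne', add_zero] at h3
  filter_upwards [h3.eventually (gt_mem_nhds zero_lt_one), self_mem_nhdsWithin] with ε h hε
  have e : a * ε ^ (L : ℝ)⁻¹ - b * (Real.log ε * ε ^ (L : ℝ)⁻¹) =
      ε ^ (L : ℝ)⁻¹ * (a + b * -Real.log ε) := by ring
  rw [e, mul_pow, Real.rpow_inv_natCast_pow (le_of_lt hε) hL.ne'] at h
  linarith

variable {n : ℕ} {M : Mf n} [M.Cpt] {H B : M.Fam (Mat n)}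

/-- The potential is bounded below by the trace. -/
theorem neg_le {ε : ℝ} {u : M.X → ℝ} (hn : 0 < n) (hH : M.Kae H) (hu : M.SolB H B ε u)
    (x : M.X) : -u x ≤ n * Real.log (M.tr (M.gB H B ε u) H x) := by
  have p := tr_pos hn hu.kae.toMet hH.toMet x
  have a := det_le_of_le (hu.kae.toMet.ev_pos x) (hH.toMet.ev_pos x).posSemidef
    (le_tr_smul (hu.kae.toMet.ev_pos x) (hH.toMet.ev_pos x).posSemidef le_rfl)
  have b := AllOn.ch (sol_det hH hu) x
  rw [ch_symm] at b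
  rw [Fintype.card_fin, ev, ev, b, ← mul_assoc] at a
  have c := (le_mul_iff_one_le_left (pd_det_re (hH.toMet.ev_pos x))).1 a
  rw [← Real.log_pow, Real.le_log_iff_exp_le (pow_pos p n), Real.exp_neg,
    inv_le_iff_one_le_mul₀ (Real.exp_pos _)]
  exact c

/-- The potential is bounded above. -/
theorem sup_le (hH : M.Kae H) (hB : M.Form B) : ∃ C : ℝ, 1 ≤ C ∧
    ∀ ε ∈ Ioc (0 : ℝ) 1, ∀ u, M.SolB H B ε u → ∀ x, Real.exp (u x) ≤ C := by
  obtain ⟨c, hc, hr, -⟩ := (mBD n M H hH.toMet).1 _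
    (hB.sub ((mHES n M).2.2.2.2.2.2.2.2.1 H hH.toMet).toForm)
  refine ⟨(1 + c) ^ n, one_le_pow₀ (by linarith), fun ε hε u hu => ?_⟩
  have h1 : M.Le (ε • H + B - M.ric H) ((1 + c) • H) := by
    have := (hH.toMet.le_smul hε.2).add hr
    rwa [← add_smul, ← add_sub_assoc] at this
  obtain ⟨y, hy⟩ := hu.sm.exists_max
  have h3 := ((((mLAP n M _ _ hu.sm hu.sm).2.2 _ hH.toMet).2.2.1 y 0).2.2.2.2.2.2.2.2.1
    (Eventually.of_forall hy)).2.2 _ (ch_mem y) (mem_ch y)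
  have h4 := (AllOn.ch h1 y).add h3
  rw [← sub_eq_add_neg, sub_sub] at h4
  have h6 := det_le_of_le (c := 1 + c) (hH.toMet.ev_pos y) (hu.kae.toMet.ev_pos y).posSemidef h4
  have h7 := AllOn.ch (sol_det hH hu) y
  rw [ch_symm] at h7
  rw [Fintype.card_fin, ev, ev, h7] at h6
  exact fun x => (Real.exp_le_exp.2 (hy x)).trans
    (le_of_mul_le_mul_right h6 (pd_det_re (hH.toMet.ev_pos y)))

/-- Polynomial bounds from the maximum principle. -/
theorem bounds {μ N₀ : ℝ} (hn : 0 < n) (hH : M.Kae H) (hB : M.Form B) (hμ : 0 < μ)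
    (hs : ∀ ε ∈ Ioc (0 : ℝ) 1, ∀ u, M.SolB H B ε u → ∀ x, μ * ε * M.tr (M.gB H B ε u) H x - N₀ ≤
      M.lap (M.gB H B ε u) (fun y => Real.log (M.tr (M.gB H B ε u) H y) - μ * u y) x) :
    ∃ (C : ℝ) (N : ℕ), 1 ≤ C ∧ ∀ ε ∈ Ioc (0 : ℝ) 1, ∀ u, M.SolB H B ε u →
      (∀ x, M.tr (M.gB H B ε u) H x ≤ C * ε⁻¹ ^ N) ∧
      M.Le ((C * ε⁻¹ ^ N)⁻¹ • H) (M.gB H B ε u) ∧ M.Le (M.gB H B ε u) ((C * ε⁻¹ ^ N) • H) ∧
      ∀ x, -(C + N * -Real.log ε) ≤ u x ∧ u x ≤ C := by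
  obtain ⟨C, hC, hup⟩ := sup_le hH hB
  obtain ⟨L, hL⟩ := exists_nat_ge (1 + μ * n)
  obtain ⟨D, hD1, hD⟩ : ∃ D : ℝ, 1 ≤ D ∧ N₀ / μ ≤ D := ⟨_, le_max_left _ _, le_max_right _ _⟩
  obtain ⟨F, hF⟩ : ∃ F, F = Real.exp (μ * C) * D ^ L := ⟨_, rfl⟩
  have hF1 : 1 ≤ F := hF ▸ one_le_mul_of_one_le_of_one_le
    (Real.one_le_exp (by positivity)) (one_le_pow₀ hD1)
  have hFn : F ≤ F ^ n := le_self_pow₀ hF1 hn.ne'
  have hCF : F ^ n ≤ C * F ^ n := le_mul_of_one_le_left (by positivity) hC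
  have hCF' : C ≤ C * F ^ n := le_mul_of_one_le_right (by positivity) (hF1.trans hFn)
  refine ⟨C * F ^ n, L * n, by linarith, fun ε hε u hu => ?_⟩
  have hG := hu.kae.toMet
  have i1 : 1 ≤ ε⁻¹ := (one_le_inv₀ hε.1).mpr hε.2
  have i2 : 1 ≤ ε⁻¹ ^ L := one_le_pow₀ i1
  have hS : M.Sm (M.tr (M.gB H B ε u) H) := ((mINV n M _ hG).1 _ hH.toMet.toTen).2.1
  have hp := tr_pos hn hG hH.toMet
  have hy := (hS.log fun y => (hp y).ne').sub (hu.sm.const_mul μ)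
  have hu1 : ∀ x, u x ≤ C := fun x => by linarith [hup ε hε u hu x, Real.add_one_le_exp (u x)]
  have h1 : ∀ x, M.tr (M.gB H B ε u) H x ≤ F * ε⁻¹ ^ L := fun x => by
    obtain ⟨y, hm⟩ := hy.exists_max
    have a1 := (hs ε hε u hu y).trans (((((mLAP n M _ _ hy hy).2.2 _ hG).2.2.1 y
      0).2.2.2.2.2.2.2.2.1 (Eventually.of_forall hm)).1)
    have a2 : M.tr (M.gB H B ε u) H y ≤ D * ε⁻¹ := by
      rw [div_le_iff₀ hμ] at hD
      rw [← div_eq_mul_inv, le_div_iff₀ hε.1]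
      exact le_of_mul_le_mul_left (by linarith) hμ
    have a3 := Real.log_le_log (hp y) a2
    have a4 := Real.log_nonneg (one_le_mul_of_one_le_of_one_le hD1 i1)
    have a5 := mul_le_mul_of_nonneg_left ((neg_le hn hH hu y).trans
      (mul_le_mul_of_nonneg_left a3 n.cast_nonneg)) hμ.le
    have a6 := mul_le_mul_of_nonneg_right hL a4
    have a7 := mul_le_mul_of_nonneg_left (hu1 x) hμ.le
    have a8 := hm x
    rw [hF, mul_assoc, ← mul_pow, ← Real.log_le_log_iff (hp x) (by positivity),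
      Real.log_mul (Real.exp_pos _).ne' (by positivity), Real.log_exp, Real.log_pow]
    linarith
  obtain ⟨K, hK⟩ : ∃ K, K = F * ε⁻¹ ^ L := ⟨_, rfl⟩
  have hK1 : 1 ≤ K := hK ▸ one_le_mul_of_one_le_of_one_le hF1 i2
  have e1 : C * F ^ n * ε⁻¹ ^ (L * n) = C * K ^ n := by rw [hK, mul_pow, pow_mul, mul_assoc]
  rw [← hK] at h1
  have k1 : K ≤ C * K ^ n :=
    (le_self_pow₀ hK1 hn.ne').trans (le_mul_of_one_le_left (by positivity) hC)
  have h2 : M.Le (K⁻¹ • H) (M.gB H B ε u) := by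
    have h7 : M.Le H (K • M.gB H B ε u) := fun e he z hz => by
      have a := h1 (e.symm z)
      rw [((mINV n M _ hG).1 H hH.toMet.toTen).1 e he z hz] at a
      exact le_tr_smul (hG.pos e he z hz) (hH.pos e he z hz).posSemidef a
    have h8 := h7.smul (c := K⁻¹) (by positivity)
    rwa [smul_smul, inv_mul_cancel₀ (by positivity), one_smul] at h8
  rw [e1]
  refine ⟨fun x => (h1 x).trans k1, (hH.toMet.le_smul (inv_anti₀ (by positivity) k1)).trans h2,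
    Le.trans (T := (C / K⁻¹ ^ (Fintype.card (Fin n) - 1)) • H) (fun e he z hz => ?_)
      (hH.toMet.le_smul ?_), fun x => ⟨?_, by linarith [hu1 x]⟩⟩
  · refine le_of_det_le (hH.pos e he z hz) (hG.herm e he z hz) (by positivity) (h2 e he z hz) ?_
    rw [sol_det hH hu e he z hz]
    exact mul_le_mul_of_nonneg_right (hup ε hε u hu _) (pd_det_re (hH.pos e he z hz)).le
  · rw [Fintype.card_fin, inv_pow, div_inv_eq_mul]
    exact mul_le_mul_of_nonneg_left (pow_le_pow_right₀ hK1 (Nat.sub_le _ _)) (by linarith)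
  · have a := (neg_le hn hH hu x).trans
      (mul_le_mul_of_nonneg_left (Real.log_le_log (hp x) (h1 x)) n.cast_nonneg)
    rw [hK, Real.log_mul (by positivity) (by positivity), Real.log_pow, Real.log_inv, mul_add,
      ← Real.log_pow] at a
    have b := Real.log_le_self (x := F ^ n) (by positivity)
    push_cast
    linarith

/-- The statement without any hypothesis on the curvature: what is used is the differential
inequality for the trace, the bounds for the potential and the bound for the gradient. -/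
theorem core {c C C₁ C₂ μ : ℝ} {N N₁ L : ℕ} (hn : 0 < n) (hH : M.Kae H)
    (hB : M.Form B) (hc : 0 < c) (hC₁ : 1 ≤ C₁) (hC₂ : 1 ≤ C₂) (hμ : 0 ≤ μ) (hL : 1 + μ * n ≤ L)
    (hs : ∀ ε ∈ Ioc (0 : ℝ) 1, ∀ u, M.SolB H B ε u →
      (∀ x, -(L : ℝ) ≤
        M.lap (M.gB H B ε u) (fun y => Real.log (M.tr (M.gB H B ε u) H y) - μ * u y) x) ∧
      ∀ x, -(C₁ + N₁ * -Real.log ε) ≤ u x ∧ u x ≤ C₁)
    (hg : ∀ ε ∈ Ioc (0 : ℝ) 1, ∀ u, M.SolB H B ε u → ∀ x,
      M.gr H (M.tr (M.gB H B ε u) H) (M.tr (M.gB H B ε u) H) x ≤ (C₂ * ε⁻¹ ^ N) ^ 2)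
    (hv : ∀ ε ∈ Ioc (0 : ℝ) 1, ∀ u, M.SolB H B ε u → c ≤ (M.mu (M.gB H B ε u)).real univ ∧
      ∫ x, M.dq (M.gB H B ε u) (M.gB H B ε u + H) x ∂M.mu (M.gB H B ε u) ≤ C) :
    ∀ᶠ ε in 𝓝[>] (0 : ℝ), ∀ u, M.SolB H B ε u → ∀ x, ε * M.tr (M.gB H B ε u) H x < 1 := by
  have hric : M.Clo (M.ric H) := (mHES n M).2.2.2.2.2.2.2.2.1 H hH.toMet
  obtain ⟨C₀, hC₀, hr0, -⟩ := (mBD n M H hH.toMet).1 _ (hB.sub hric.toForm)
  obtain ⟨C₄, hC₄, -, hps⟩ := mPSH n M H (C₀ + 1) hH.toMet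
  set C₃ : ℝ := (|C| + 1) / c with hC₃
  have hC₃0 : 0 < C₃ := by positivity
  set A₀ : ℝ := n + (C₁ + C₁ + C₄ * (1 + Real.log ((C₄ + 1) * C₂))) with hA₀
  set A₁ : ℝ := N₁ + C₄ * N with hA₁
  have hL0 : (0 : ℝ) < L := lt_of_lt_of_le (by positivity) hL
  filter_upwards [ev_small (Real.exp (L + μ * C₁)) (1 + C₃ * A₀) (C₃ * A₁) (Nat.cast_pos.1 hL0),
    Ioc_mem_nhdsGT (zero_lt_one' ℝ)] with ε hsm hε u hu x
  obtain ⟨hlap, hub⟩ := hs ε hε u hu
  have hg := hg ε hε u hu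
  obtain ⟨hv1, hv2⟩ := hv ε hε u hu
  have hgE : M.gB H B ε u = ε • H + B - M.ric H + M.hs u := rfl
  have hG := hu.kae
  have hdet := hu.det
  have hneg := neg_le hn hH hu
  generalize M.gB H B ε u = G at *
  have hvol : ∀ f : M.X → ℝ, ∫ y, f y ∂M.mu G = ∫ y, f y * Real.exp (u y) ∂M.mu H := fun f => by
    rw [((mMU n M H hH.toMet).2.2.2.2.2.2 G hG.toMet).2.1 f]
    exact integral_congr_ae (Eventually.of_forall fun y => by
      beta_reduce
      rw [hdet y, mul_comm])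
  have hn' : (1 : ℝ) ≤ n := by exact_mod_cast hn
  have hl : 0 ≤ -Real.log ε := neg_nonneg.2 (Real.log_nonpos hε.1.le hε.2)
  have hC24 : 1 ≤ (C₄ + 1) * C₂ := by nlinarith
  have hA0 : 0 < A₀ := by
    have := Real.log_nonneg hC24
    positivity
  have hA1 : 0 ≤ A₁ := by positivity
  have ha : 0 < A₀ + A₁ * -Real.log ε := by positivity
  have hS1 : M.Sm (M.tr G H) := ((mINV n M G hG.toMet).1 _ hH.toMet.toTen).2.1
  have hSp : ∀ y, 0 < M.tr G H y := tr_pos hn hG.toMet hH.toMet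
  obtain ⟨x₀, hx₀⟩ := hS1.exists_max
  have hpos : 0 < C₃ * (A₀ + A₁ * -Real.log ε) := by positivity
  refine lt_of_le_of_lt (mul_le_mul_of_nonneg_left ((hx₀ x).trans ?_) hε.1.le) hsm
  by_contra hbig
  rw [not_le, add_assoc, mul_assoc C₃, ← mul_add] at hbig
  -- the bump function
  have hε1 : 1 ≤ ε⁻¹ ^ N := one_le_pow₀ ((one_le_inv₀ hε.1).2 hε.2)
  have hD : 1 ≤ (C₄ + 1) * C₂ * ε⁻¹ ^ N := by nlinarith
  obtain ⟨β₀, hβs, hβ0, hβ1, hβl, hβp⟩ := hps x₀ ((C₄ + 1) * C₂ * ε⁻¹ ^ N)⁻¹ (by positivity)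
    (inv_le_one_of_one_le₀ hD)
  have hlog : Real.log ((C₄ + 1) * C₂ * ε⁻¹ ^ N)⁻¹ =
      -(Real.log ((C₄ + 1) * C₂) + N * -Real.log ε) := by
    rw [Real.log_inv, Real.log_mul (by positivity) (by positivity), Real.log_pow, Real.log_inv]
  have hnear : ∀ y, β₀ y ≠ 0 → M.tr G H x₀ - 1 ≤ M.tr G H y := fun y hy => by
    have h1 := (abs_le.1 (hβl _ (C₂ * ε⁻¹ ^ N) hS1 (by positivity) hg y hy)).1
    have h2 : C₄ * (C₂ * ε⁻¹ ^ N) * ((C₄ + 1) * C₂ * ε⁻¹ ^ N)⁻¹ ≤ 1 := by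
      rw [← div_eq_mul_inv, div_le_one (by positivity)]
      have : 0 ≤ C₂ * ε⁻¹ ^ N := by positivity
      nlinarith
    linarith
  have hβ : M.Sm fun y => β₀ y * Real.exp (-u y) := hβs.mul hu.sm.neg.exp
  have hch : ∀ f : M.X → ℝ, ∫ y, β₀ y * Real.exp (-u y) * f y ∂M.mu G =
      ∫ y, β₀ y * f y ∂M.mu H := fun f => by
    rw [hvol]
    refine integral_congr_ae (Eventually.of_forall fun y => ?_)
    beta_reduce
    rw [Real.exp_neg]
    field_simp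
  have hβ1' : ∫ y, β₀ y * Real.exp (-u y) ∂M.mu G = 1 := by
    simpa [hβ1] using hch fun _ => 1
  have hβ0' : ∀ y, 0 ≤ β₀ y * Real.exp (-u y) := fun y => mul_nonneg (hβ0 y) (Real.exp_pos _).le
  obtain ⟨ρ, hρs, hρ0, hρ1, hρv, hρS⟩ := HS.asRHO n M G _ hn hG hβ hβ0' hβ1'
  have iG : ∀ f : M.X → ℝ, M.Sm f → Integrable f (M.mu G) := fun f hf =>
    (mMU n M G hG.toMet).2.2.2.2.1 ℝ f hf.continuous
  have iH : ∀ f : M.X → ℝ, M.Sm f → Integrable f (M.mu H) := fun f hf =>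
    (mMU n M H hH.toMet).2.2.2.2.1 ℝ f hf.continuous
  -- the integral bound
  have hint := HS.asPOP n M G H ρ (A₀ + A₁ * -Real.log ε) hn hG hH.toClo hH.toMet.nonneg hρs hρ0
      fun v hv hk => by
    have hψ := hu.sm.add hv
    obtain ⟨y₀, hy₀⟩ := hψ.exists_max
    have hψ0 : M.Sm fun y => u y + v y - (u y₀ + v y₀) := hψ.sub (sm_const _)
    have hle : M.Le 0 ((C₀ + 1) • H + M.hs fun y => u y + v y - (u y₀ + v y₀)) := by
      intro e he z hz
      have e1 := ((mLAP n M _ _ hψ (sm_const (u y₀ + v y₀))).1 (u y₀ + v y₀) e he z hz)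
      have e2 := ((mLAP n M _ _ hu.sm hv).1 0 e he z hz).2.1
      have e3 := ((hk.pos e he z hz).posSemidef.add (hr0 e he z hz)).add
        (psd_rsmul (hH.pos e he z hz).posSemidef (sub_nonneg.2 hε.2))
      simp only [Pi.add_apply, Pi.smul_apply, Pi.zero_apply, sub_zero]
      rw [e1.2.2.1, e1.1, e2]
      simp only [hgE, Pi.add_apply, Pi.sub_apply, Pi.smul_apply] at e3
      rwa [show (C₀ + 1) • H e z + (M.hs u e z + M.hs v e z - 0) =
        ε • H e z + B e z - M.ric H e z + M.hs u e z + M.hs v e z +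
          (C₀ • H e z - (B e z - M.ric H e z)) + (1 - ε) • H e z by rw [add_smul, sub_smul]; abel]
    have hm : ∀ y, u y + v y - (u y₀ + v y₀) ≤ 0 := fun y => sub_nonpos.2 (hy₀ y)
    have h1 := hβp _ hψ0 hle hm ⟨y₀, sub_self _⟩
    rw [← hch] at h1
    have h2 := pair hρ0 hβ0' (iG _ hρs) (iG _ hβ)
      (iG _ (hv.mul (hρs.sub hβ))) (iG _ (hβ.mul hψ0)) hρ1 hβ1' hm
      (fun y => (hub y).1) (fun y => (hub y).2) h1
    rw [hρv v hv]
    rw [hlog] at h2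
    rw [hA₀, hA₁]
    linarith
  have hI0 : 0 ≤ ∫ y, ρ y * M.tr G H y ∂M.mu G :=
    integral_nonneg fun y => mul_nonneg (hρ0 y) (hG.toMet.tr_nonneg hH.toMet.nonneg y)
  have hI1 : ∫ y, ρ y * M.tr G H y ∂M.mu G ≤ (|C| + 1) / c * (A₀ + A₁ * -Real.log ε) := by
    have h1 := (mul_le_mul_of_nonneg_right hv1 hI0).trans (hint.trans
      (mul_le_mul_of_nonneg_left (hv2.trans ((le_abs_self C).trans (le_add_of_nonneg_right
        zero_le_one))) ha.le))
    rw [div_mul_eq_mul_div, le_div_iff₀ hc]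
    linarith
  have hy : M.Sm fun y => Real.log (M.tr G H y) - μ * u y :=
    (hS1.log fun y => (hSp y).ne').sub (hu.sm.const_mul μ)
  have hy' : M.Sm fun y => Real.exp ((L : ℝ)⁻¹ * (Real.log (M.tr G H y) - μ * u y)) :=
    (hy.const_mul _).exp
  have hJ := hρS _ hy' (fun y => Real.exp_pos _) fun y => by
    simp only [Real.log_exp]
    rw [(((mLAP n M _ _ hy hy).2.2 G hG.toMet).2.2.1 y _).2.2.2.1, le_inv_mul_iff₀ hL0]
    linarith [hlap y]
  rw [hch] at hJ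
  simp only [Real.log_exp] at hJ
  have hs0 : 0 < M.tr G H x₀ - 1 := by
    have : 0 < Real.exp (L + μ * C₁) * (1 + C₃ * (A₀ + A₁ * -Real.log ε)) ^ L := by positivity
    linarith
  have h1 : (L : ℝ)⁻¹ * (Real.log (M.tr G H x₀ - 1) - μ * C₁) ≤
      ∫ y, β₀ y * ((L : ℝ)⁻¹ * (Real.log (M.tr G H y) - μ * u y)) ∂M.mu H := by
    have h := integral_mono
      ((iH _ hβs).mul_const ((L : ℝ)⁻¹ * (Real.log (M.tr G H x₀ - 1) - μ * C₁)))
      (iH _ (hβs.mul (hy.const_mul (L : ℝ)⁻¹))) fun y => by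
        beta_reduce
        by_cases hy : β₀ y = 0
        · rw [hy, zero_mul, zero_mul]
        · exact mul_le_mul_of_nonneg_left (mul_le_mul_of_nonneg_left (sub_le_sub
            (Real.log_le_log hs0 (hnear y hy)) (mul_le_mul_of_nonneg_left (hub y).2 hμ))
            (inv_pos.2 hL0).le) (hβ0 y)
    rwa [integral_mul_const, hβ1, one_mul] at h
  have h2 : ∫ y, ρ y * Real.exp ((L : ℝ)⁻¹ * (Real.log (M.tr G H y) - μ * u y)) ∂M.mu G ≤
      1 + C₃ * (A₀ + A₁ * -Real.log ε) := by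
    have h := integral_mono (iG _ (hρs.mul hy')) ((iG _ hρs).add (iG _ (hρs.mul hS1))) fun y => by
      have h3 : (L : ℝ)⁻¹ * (Real.log (M.tr G H y) - μ * u y) ≤ Real.log (1 + M.tr G H y) := by
        have a1 := Real.log_le_log (hSp y) (le_add_of_nonneg_left zero_le_one)
        have a2 := Real.log_nonneg (le_add_of_nonneg_right (a := (1 : ℝ)) (hSp y).le)
        have a3 := mul_le_mul_of_nonneg_left ((hneg y).trans
          (mul_le_mul_of_nonneg_left a1 n.cast_nonneg)) hμ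
        have a4 := mul_le_mul_of_nonneg_right hL a2
        rw [inv_mul_le_iff₀ hL0]
        linarith
      have := mul_le_mul_of_nonneg_left
        ((Real.le_log_iff_exp_le (by linarith [hSp y])).1 h3) (hρ0 y)
      simp only [Pi.add_apply]
      linarith
    rw [integral_add' (iG _ hρs) (iG _ (hρs.mul hS1)), hρ1] at h
    linarith
  have h3 := Real.log_le_log (by
    obtain ⟨y₁, hy₁⟩ := hy'.exists_min
    have h := integral_mono ((iG _ hρs).mul_const _)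
      (iG _ (hρs.mul hy')) fun y => mul_le_mul_of_nonneg_left (hy₁ y) (hρ0 y)
    rw [integral_mul_const, hρ1, one_mul] at h
    exact (Real.exp_pos _).trans_le h) h2
  have h4 : Real.log (M.tr G H x₀ - 1) ≤
      Real.log (Real.exp (L + μ * C₁) * (1 + C₃ * (A₀ + A₁ * -Real.log ε)) ^ L) := by
    have := (inv_mul_le_iff₀ hL0).1 ((h1.trans hJ).trans (add_le_add_left h3 1))
    rw [Real.log_mul (Real.exp_pos _).ne' (by positivity), Real.log_exp, Real.log_pow]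
    linarith
  have h5 := (Real.log_le_log_iff hs0 (by positivity)).1 h4
  linarith

/-- The trace is small. -/
theorem small {μ N₀ : ℝ} (hn : 0 < n) (hH : M.Kae H) (hB : M.Clo B) (hμ : 0 < μ)
    (hex : ∀ ε : ℝ, 0 < ε → ∃ u, M.SolB H B ε u)
    (hs : ∀ ε ∈ Ioc (0 : ℝ) 1, ∀ u, M.SolB H B ε u → ∀ x, μ * ε * M.tr (M.gB H B ε u) H x - N₀ ≤
      M.lap (M.gB H B ε u) (fun y => Real.log (M.tr (M.gB H B ε u) H y) - μ * u y) x)
    (hv : 0 < ∫ x, M.dq H (B - M.ric H) x ∂M.mu H) :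
    ∀ᶠ ε in 𝓝[>] (0 : ℝ), ∀ u, M.SolB H B ε u → ∀ x, ε * M.tr (M.gB H B ε u) H x < 1 := by
  obtain ⟨c, C, hc, hb⟩ := RB.big hH hH.toMet hB hex hv
  obtain ⟨C₁, N₁, hC₁, h1⟩ := bounds hn hH hB.toForm hμ hs
  obtain ⟨C₂, N₂, hC₂, h2⟩ := gen M hn hH hH.toForm hB.toForm
  obtain ⟨L, hL⟩ := exists_nat_ge (max (1 + μ * n) N₀)
  refine core (C₂ := C₂ * C₁ ^ N₂) (N := N₁ * N₂) (N₁ := N₁) (L := L) hn hH hB.toForm hc hC₁
    (one_le_mul_of_one_le_of_one_le hC₂ (one_le_pow₀ hC₁)) hμ.le ((le_max_left _ _).trans hL)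
    (fun ε hε u hu => ⟨fun x => le_trans ?_ (hs ε hε u hu x), (h1 ε hε u hu).2.2.2⟩)
    (fun ε hε u hu x => ?_) hb
  · have := mul_pos (mul_pos hμ hε.1) (tr_pos hn hu.kae.toMet hH.toMet x)
    linarith [(le_max_right _ _).trans hL]
  · obtain ⟨-, a, b, -⟩ := h1 ε hε u hu
    have := h2 ε hε _ (one_le_mul_of_one_le_of_one_le hC₁
      (one_le_pow₀ ((one_le_inv₀ hε.1).mpr hε.2))) _ hu.kae (sol_ric hH hu) a b x
    rwa [mul_pow C₁, ← pow_mul, ← mul_assoc] at this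

omit [M.Cpt] in
theorem fl1_zero (H : M.Fam (Mat n)) : M.Fl1 H 0 0 where
  en := ⟨fun _ _ _ _ => smM_const 0, fun _ _ _ _ _ _ _ => by simp⟩
  hol := fun _ _ _ _ _ => dMb_const 0
  herm := fun _ _ _ _ => by simp
  le := n.zero_le
  par := fun _ _ _ _ _ => (dM_const 0).trans (by simp)
  idem := fun _ _ _ _ => by simp
  det := fun _ _ _ _ _ => by simp
  flat := fun _ _ _ _ _ _ => by simp
  flat' := fun _ _ _ _ _ _ => by simp
  t1 := fun _ _ _ _ _ _ => by simp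
  t2 := fun _ _ _ _ _ _ => by simp [tors, asy]

/-- A positive canonical class is semi-ample. -/
theorem semi_of_pos (hn : 0 < n) (hH : M.Met H) {w : M.X → ℝ} (hw : M.Sm w)
    (hk : M.Kae (M.theta H w)) : M.Semi := by
  have hf := fl1_zero (M := M) H
  obtain ⟨v, v1, v2, v3⟩ := K66.solve (B := H * 0) HS.asAUBIN hn hH hw (by simpa using hk)
  obtain ⟨G, hG⟩ := st_GPOS' n M H 0 0 v hH hf (st_GPRD n M H 0 0 hH hf).1 v1 v2 v3
    fun e he z hz => by simp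
  exact HS.asPEAK n M _ _ hn hG.kH hG.sm hG.psd (HS.asSEC4 n M _ 0 G 0 _ hn hG)

/-- The case of a big canonical class. -/
theorem big {μ N₀ lam : ℝ} (hn : 0 < n) (hH : M.Kae H) (hμ : 0 < μ) (hl : 0 ≤ lam)
    (hB : M.All fun e z => B e z = lam • -M.ric H e z)
    (hex : ∀ ε : ℝ, 0 < ε → ∃ u, M.SolB H B ε u)
    (hs : ∀ ε ∈ Ioc (0 : ℝ) 1, ∀ u, M.SolB H B ε u → ∀ x, μ * ε * M.tr (M.gB H B ε u) H x - N₀ ≤
      M.lap (M.gB H B ε u) (fun y => Real.log (M.tr (M.gB H B ε u) H y) - μ * u y) x)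
    (hv : 0 < ∫ x, M.dq H (B - M.ric H) x ∂M.mu H) : M.Semi := by
  have hr := (mHES n M).2.2.2.2.2.2.2.2.1 H hH.toMet
  have hc : M.Clo B := (hr.neg.smul lam).congr hB
  obtain ⟨ε, h1, hε⟩ := ((small hn hH hc hμ hex hs hv).and self_mem_nhdsWithin).exists
  obtain ⟨u, hu⟩ := hex ε hε
  obtain ⟨v, v1, v2, -⟩ := stGKE HS.asAUBIN n M H H B ε u hn hH hH.toMet hc hε hu (h1 u hu)
  have p : 0 < (1 + lam)⁻¹ := by positivity
  refine semi_of_pos hn hH.toMet (v1.const_mul (1 + lam)⁻¹) ((v2.smul p).congr fun e he z hz => ?_)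
  simp only [Mf.theta, Pi.add_apply, Pi.sub_apply, Pi.smul_apply]
  rw [((mLAP n M v v v1 v1).1 _ e he z hz).2.2.2.1, hB e he z hz]
  have a : lam • -M.ric H e z + (M.hs v e z - M.ric H e z) =
      M.hs v e z - (1 + lam) • M.ric H e z := by
    rw [add_smul, one_smul, smul_neg]
    abel
  rw [a, smul_sub, smul_smul, inv_mul_cancel₀ (by positivity), one_smul]

/-- The case of a big canonical class, for the twisted curvature condition. -/
theorem big_tw {lam : ℝ} (hn : 0 < n) (hH : M.Kae H) (hl : 0 < lam) (hw : K39.Tw M H lam)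
    (hv : 0 < M.vol H 0) : M.Semi := by
  have hc : M.Clo (lam • -M.ric H) := (K39.clo_eta hH.toMet).smul lam
  refine big (B := lam • -M.ric H) (μ := lam / (1 + lam)) (N₀ := 1 + lam / (1 + lam) * n) hn hH
    (by positivity) hl.le (fun _ _ _ _ => rfl)
    (fun ε hε => K39.exists_sol HS.asAUBIN hn hH hl hw hc (Le.refl _) hε)
    (fun ε hε u hu x => ?_) ?_
  · rw [mul_assoc]
    exact K39.clp_tw hn hH hl.le hw hε.1.le (Le.refl _) hu x
  · have e : lam • -M.ric H - M.ric H = (1 + lam) • ((0 : ℝ) • H - M.ric H) := by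
      rw [zero_smul, zero_sub, add_smul, one_smul]
      abel
    simp only [e, dq_smul, integral_const_mul]
    exact mul_pos (by positivity) hv

end Pool.Agent.Lib.K51
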